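import Pool.Agent.H.MP_65e1c6_gt.B

open Set Filter Topology
open scoped Real

namespace Pool.Agent.Results.MP_65e1c6_gt.Fails

/-- The metric `du² + 2 sin w du dv + dv²` is locally Euclidean on `D`: near each point there is a
`C¹` map `f = (x, y)` with `|f_u| = |f_v| = 1` and `f_u · f_v = sin w`. -/
def LocEuc (D : Set (ℝ × ℝ)) (w : ℝ × ℝ → ℝ) : Prop :=
  ∀ p ∈ D, ∃ U, IsOpen U ∧ p ∈ U ∧ U ⊆ D ∧ ∃ x y : ℝ × ℝ → ℝ,
    ContDiffOn ℝ 1 x U ∧ ContDiffOn ℝ 1 y U ∧ ∀ q ∈ U,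
      fderiv ℝ x q (1, 0) ^ 2 + fderiv ℝ y q (1, 0) ^ 2 = 1 ∧
      fderiv ℝ x q (0, 1) ^ 2 + fderiv ℝ y q (0, 1) ^ 2 = 1 ∧
      fderiv ℝ x q (1, 0) * fderiv ℝ x q (0, 1) + fderiv ℝ y q (1, 0) * fderiv ℝ y q (0, 1) =
        Real.sin (w q)

theorem result : ∃ (D : Set (ℝ × ℝ)) (w : ℝ × ℝ → ℝ), IsOpen D ∧ ContinuousOn w D ∧
    (∀ p ∈ D, |Real.sin (w p)| < 1) ∧ LocEuc D w ∧ ∃ p ∈ D,
      ¬ ∃ U ∈ 𝓝 p, ∃ g h : ℝ → ℝ, ∀ q ∈ U, w q = g q.1 + h q.2 := by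
  open Pool.Agent.H.MP_65e1c6_gt in
  obtain ⟨F, c, h, i1, i2⟩ := lim
  open Pool.Agent.H.MP_65e1c6_gt in
  have s : ∀ p, Real.sin (Real.arcsin (ip F p)) = ip F p := fun p =>
    Real.sin_arcsin (abs_lt.1 (h p).2.2).1.le (abs_lt.1 (h p).2.2).2.le
  have cf := c.continuous_fderiv (by simp)
  open Pool.Agent.H.MP_65e1c6_gt in
  refine ⟨univ, fun p => Real.arcsin (ip F p), isOpen_univ, (Real.continuous_arcsin.comp
    ((cf.clm_apply continuous_const).inner (cf.clm_apply continuous_const))).continuousOn,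
    fun p _ => (s p).symm ▸ (h p).2.2, fun p _ => ⟨univ, isOpen_univ, trivial, Subset.rfl,
      Complex.reCLM ∘ F, Complex.imCLM ∘ F, (Complex.reCLM.contDiff.comp c).contDiffOn,
      (Complex.imCLM.contDiff.comp c).contDiffOn, fun q _ => ?_⟩, ?_⟩
  · have d := (c.differentiable (by simp) q).hasFDerivAt
    rw [(Complex.reCLM.hasFDerivAt.comp q d).fderiv, (Complex.imCLM.hasFDerivAt.comp q d).fderiv, s]
    obtain ⟨a, b, -⟩ := h q
    rw [Complex.sq_norm, Complex.normSq_apply] at a b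
    simp only [ContinuousLinearMap.comp_apply, Complex.reCLM_apply, Complex.imCLM_apply,
      Pool.Agent.H.MP_65e1c6_gt.ip, Complex.inner, Complex.mul_re, Complex.conj_re, Complex.conj_im]
    exact ⟨by linarith, by linarith, by ring⟩
  · by_contra k
    push Not at k
    have := Pool.Agent.H.MP_65e1c6_gt.glob _ (fun p => k p trivial) 0 π 0 π
    have m : ∀ p, Pool.Agent.H.MP_65e1c6_gt.ip F p ∈ Icc (-1 : ℝ) 1 := fun p =>
      ⟨(abs_lt.1 (h p).2.2).1.le, (abs_lt.1 (h p).2.2).2.le⟩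
    linarith [Real.strictMonoOn_arcsin (m _) (m _) i1, Real.strictMonoOn_arcsin (m _) (m _) i2]

end Pool.Agent.Results.MP_65e1c6_gt.Fails
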